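import Pool.Agent.helper68.AM.SpecX

/-!
Project sl, part X, module XA2: the number of indices of weight `g (lx + 2 ly)`.
-/

set_option autoImplicit false

namespace AM

open Pool.Agent.helper72.Sq Matrix

/-- the two roots -/
noncomputable def XA2_P (ρ : F2 →* SpecialLinearGroup (Fin 2) ℝ) (ε : Bool) : Tri :=
  if ε then trTri ρ (ga, gb) else Tw (trTri ρ (ga, gb))

/-- length of the mediant of a node -/
noncomputable def XA2_M (ρ : F2 →* SpecialLinearGroup (Fin 2) ℝ) (x : Bool × List Bool) : ℝ :=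
  len (desc x.2 (XA2_P ρ x.1)).2.2

theorem XA2_desc (w : List Bool) (b : Bool) (P : Tri) :
    desc (w ++ [b]) P = if b then Lm (desc w P) else Rm (desc w P) := by
  induction w generalizing P with
  | nil => cases b <;> rfl
  | cons c w ih =>
    cases c
    · exact ih (Rm P)
    · exact ih (Lm P)

/-- the count of all nodes of the two trees -/
theorem XA2_nodes (hXZ : XZ_stmt) (hT : TOT_stmt) (ρ : F2 →* SpecialLinearGroup (Fin 2) ℝ)
    (hA : Adm (trTri ρ (ga, gb))) :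
    (∀ R, {x : Bool × List Bool | XA2_M ρ x ≤ R}.Finite) ∧ ∃ b K : ℝ, 0 < b ∧ 0 ≤ K ∧
      ∀ R : ℝ, 1 ≤ R → |(({x : Bool × List Bool | XA2_M ρ x ≤ R}.ncard : ℝ)) - b * R ^ 2| ≤
        K * R := by
  obtain ⟨f1, f2, b, K, hb, hK, h⟩ := hT _ hA
  have hsplit : ∀ R, {x : Bool × List Bool | XA2_M ρ x ≤ R} =
      (Prod.mk true '' {w : List Bool | len (desc w (trTri ρ (ga, gb))).2.2 ≤ R}) ∪
      (Prod.mk false '' {w : List Bool | len (desc w (Tw (trTri ρ (ga, gb)))).2.2 ≤ R}) := by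
    intro R
    ext ⟨ε, w⟩
    cases ε <;> simp [XA2_M, XA2_P]
  have hfin : ∀ R, {x : Bool × List Bool | XA2_M ρ x ≤ R}.Finite := by
    intro R
    rw [hsplit R]
    exact ((hXZ _ R (f1 R)).1.image _).union ((hXZ _ R (f2 R)).1.image _)
  have hcard : ∀ R, (({x : Bool × List Bool | XA2_M ρ x ≤ R}.ncard : ℝ)) =
      (({w : List Bool | len (desc w (trTri ρ (ga, gb))).2.2 ≤ R}.ncard : ℝ)) +
      (({w : List Bool | len (desc w (Tw (trTri ρ (ga, gb)))).2.2 ≤ R}.ncard : ℝ)) := by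
    intro R
    rw [hsplit R, Set.ncard_union_eq ?_ ((hXZ _ R (f1 R)).1.image _) ((hXZ _ R (f2 R)).1.image _),
      Set.ncard_image_of_injective _ (Prod.mk_right_injective true),
      Set.ncard_image_of_injective _ (Prod.mk_right_injective false)]
    · push_cast
      rfl
    · rw [Set.disjoint_left]
      rintro x ⟨w, -, rfl⟩ ⟨w', -, h'⟩
      exact absurd (congrArg Prod.fst h') (by simp)
  refine ⟨hfin, b, K + 2, hb, by linarith, ?_⟩
  intro R hR
  have h1 := h R hR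
  have h2 := (hXZ _ R (f1 R)).2
  have h3 := (hXZ _ R (f2 R)).2
  rw [hcard R]
  rw [abs_le] at h1 h2 h3 ⊢
  constructor <;> nlinarith [h1.1, h1.2, h2.1, h2.2, h3.1, h3.2]

/-- lower the threshold of an estimate for a monotone counting function -/
theorem XA2_thr (N : ℝ → ℕ) (hmono : Monotone N) (b K R0 : ℝ) (hb : 0 < b) (hR0 : 1 ≤ R0)
    (h : ∀ R, R0 ≤ R → |((N R : ℝ)) - b * R ^ 2| ≤ K * R) :
    ∃ K' : ℝ, ∀ R, 1 ≤ R → |((N R : ℝ)) - b * R ^ 2| ≤ K' * R := by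
  refine ⟨max K ((N R0 : ℝ) + b * R0 ^ 2), ?_⟩
  intro R hR
  rcases le_total R0 R with h1 | h1
  · refine (h R h1).trans ?_
    exact mul_le_mul_of_nonneg_right (le_max_left _ _) (by linarith)
  · have h2 : (N R : ℝ) ≤ N R0 := by exact_mod_cast hmono h1
    have h3 : (0 : ℝ) ≤ N R := Nat.cast_nonneg _
    have h4 : b * R ^ 2 ≤ b * R0 ^ 2 := by
      apply mul_le_mul_of_nonneg_left _ hb.le
      exact pow_le_pow_left₀ (by linarith) h1 2
    have h5 : 0 ≤ b * R ^ 2 := by positivity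
    have h6 : |((N R : ℝ)) - b * R ^ 2| ≤ (N R0 : ℝ) + b * R0 ^ 2 := by
      rw [abs_le]
      constructor <;> linarith
    have h7 : (N R0 : ℝ) + b * R0 ^ 2 ≤ max K ((N R0 : ℝ) + b * R0 ^ 2) := le_max_right _ _
    have h8 : 0 ≤ max K ((N R0 : ℝ) + b * R0 ^ 2) := by
      refine le_trans ?_ h7
      positivity
    calc |((N R : ℝ)) - b * R ^ 2| ≤ max K ((N R0 : ℝ) + b * R0 ^ 2) := h6.trans h7
      _ = max K ((N R0 : ℝ) + b * R0 ^ 2) * 1 := (mul_one _).symm
      _ ≤ max K ((N R0 : ℝ) + b * R0 ^ 2) * R := mul_le_mul_of_nonneg_left hR h8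

/-- the index as a child -/
def XA2_ch (b0 : Bool) (i : Ix) : Bool × List Bool :=
  (i.1, i.2.1 ++ [if i.2.2.val % 2 = 0 then b0 else !b0])

theorem XA2_key (s : ℕ) (c b0 : Bool) :
    (if (2 * s + (if c = b0 then 0 else 1)) % 2 = 0 then b0 else !b0) = c := by
  by_cases hcb : c = b0
  · simp [hcb]
  · have h1 : (2 * s + (if c = b0 then 0 else 1)) % 2 = 1 := by
      rw [if_neg hcb]
      omega
    rw [if_neg (by omega)]
    cases c <;> cases b0 <;> simp_all

theorem XA2_GW (hXZ : XZ_stmt) (hT : TOT_stmt) (ρ : F2 →* SpecialLinearGroup (Fin 2) ℝ)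
    (hA : Adm (trTri ρ (ga, gb))) (b0 : Bool) (g : ℝ) (hg : 0 < g) :
    GW (fun i => g * XA2_M ρ (XA2_ch b0 i)) := by
  obtain ⟨hfin, b, K, hb, hK, h⟩ := XA2_nodes hXZ hT ρ hA
  -- the bijection
  let Φ : Ix → (Bool × List Bool) × Fin 2 := fun i => (XA2_ch b0 i, ⟨i.2.2.val / 2, by omega⟩)
  have hinj : Function.Injective Φ := by
    rintro ⟨ε, w, τ⟩ ⟨ε', w', τ'⟩ h
    simp only [Φ, XA2_ch, Prod.mk.injEq, Fin.mk.injEq] at h
    obtain ⟨⟨h1, h2⟩, h3⟩ := h
    obtain ⟨h4, h5⟩ := List.append_inj' h2 rfl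
    have h6 : τ = τ' := by
      have h7 : τ.val % 2 = τ'.val % 2 := by
        have h8 : (if τ.val % 2 = 0 then b0 else !b0) = if τ'.val % 2 = 0 then b0 else !b0 := by
          simpa using h5
        by_cases ha : τ.val % 2 = 0 <;> by_cases hb' : τ'.val % 2 = 0
        · omega
        · rw [if_pos ha, if_neg hb'] at h8
          cases b0 <;> simp at h8
        · rw [if_neg ha, if_pos hb'] at h8
          cases b0 <;> simp at h8
        · omega
      apply Fin.ext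
      omega
    rw [h1, h4, h6]
  have himg : ∀ R, Φ '' {i : Ix | g * XA2_M ρ (XA2_ch b0 i) ≤ R} =
      ({x : Bool × List Bool | XA2_M ρ x ≤ R / g} \ {x | x.2 = []}) ×ˢ (Set.univ : Set (Fin 2)) := by
    intro R
    ext ⟨⟨ε, v⟩, s⟩
    constructor
    · rintro ⟨i, hi, h⟩
      rw [← h]
      refine ⟨⟨?_, ?_⟩, trivial⟩
      · show XA2_M ρ (XA2_ch b0 i) ≤ R / g
        rw [le_div_iff₀ hg, mul_comm]
        exact hi
      · show ¬ (i.2.1 ++ [_] = [])
        simp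
    · rintro ⟨⟨h1, h2⟩, -⟩
      have hv : v ≠ [] := h2
      obtain ⟨w, c, hwc⟩ : ∃ w c, v = w ++ [c] :=
        ⟨v.dropLast, v.getLast hv, (List.dropLast_append_getLast hv).symm⟩
      have hs : s.val < 2 := s.2
      refine ⟨(ε, w, ⟨2 * s.val + (if c = b0 then 0 else 1), by split_ifs <;> omega⟩), ?_, ?_⟩
      · have h3 : XA2_ch b0 (ε, w, ⟨2 * s.val + (if c = b0 then 0 else 1), by split_ifs <;> omega⟩) =
            (ε, v) := by
          simp only [XA2_ch, hwc]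
          rw [XA2_key]
        show g * XA2_M ρ (XA2_ch b0 _) ≤ R
        rw [h3]
        have h4 : XA2_M ρ (ε, v) ≤ R / g := h1
        rw [le_div_iff₀ hg, mul_comm] at h4
        exact h4
      · simp only [Φ, XA2_ch, hwc, Prod.mk.injEq, true_and]
        constructor
        · rw [XA2_key]
        · apply Fin.ext
          by_cases hcb : c = b0
          · simp [hcb]
          · simp only [if_neg hcb]
            omega
  have hroot : ({x : Bool × List Bool | x.2 = []} : Set (Bool × List Bool)) =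
      (fun ε : Bool => (ε, ([] : List Bool))) '' Set.univ := by
    ext ⟨ε, v⟩
    constructor
    · intro h
      exact ⟨ε, trivial, by rw [show v = [] from h]⟩
    · rintro ⟨ε', -, h⟩
      exact (congrArg Prod.snd h).symm
  have hroot2 : ({x : Bool × List Bool | x.2 = []} : Set (Bool × List Bool)).Finite := by
    rw [hroot]
    exact Set.finite_univ.image _
  have hroot3 : ({x : Bool × List Bool | x.2 = []} : Set (Bool × List Bool)).ncard ≤ 2 := by
    rw [hroot]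
    refine (Set.ncard_image_le Set.finite_univ).trans ?_
    rw [Set.ncard_univ, Nat.card_eq_fintype_card, Fintype.card_bool]
  have hf : ∀ R, {i : Ix | g * XA2_M ρ (XA2_ch b0 i) ≤ R}.Finite := by
    intro R
    apply Set.Finite.of_finite_image _ hinj.injOn
    rw [himg R]
    exact ((hfin (R / g)).sdiff).prod Set.finite_univ
  have hcard : ∀ R, {i : Ix | g * XA2_M ρ (XA2_ch b0 i) ≤ R}.ncard =
      ({x : Bool × List Bool | XA2_M ρ x ≤ R / g} \ {x | x.2 = []}).ncard * 2 := by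
    intro R
    rw [← Set.ncard_image_of_injective _ hinj, himg R, Set.ncard_prod, Set.ncard_univ,
      Nat.card_eq_fintype_card, Fintype.card_fin]
  have hle : ∀ R, ({x : Bool × List Bool | XA2_M ρ x ≤ R / g}.ncard) ≤
      ({x : Bool × List Bool | XA2_M ρ x ≤ R / g} \ {x | x.2 = []}).ncard + 2 := by
    intro R
    have h1 := Set.ncard_le_ncard_sdiff_add_ncard
      ({x : Bool × List Bool | XA2_M ρ x ≤ R / g}) ({x | x.2 = []}) hroot2
    omega
  have hle2 : ∀ R, ({x : Bool × List Bool | XA2_M ρ x ≤ R / g} \ {x | x.2 = []}).ncard ≤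
      ({x : Bool × List Bool | XA2_M ρ x ≤ R / g}.ncard) := fun R =>
    Set.ncard_le_ncard Set.sdiff_subset (hfin _)
  refine ⟨hf, 2 * b / g ^ 2, ?_⟩
  have hmono : Monotone fun R => {i : Ix | g * XA2_M ρ (XA2_ch b0 i) ≤ R}.ncard := by
    intro R R' hRR
    exact Set.ncard_le_ncard (fun i hi => le_trans hi hRR) (hf R')
  have hb' : 0 < 2 * b / g ^ 2 := by positivity
  obtain ⟨K', hK'⟩ := XA2_thr _ hmono (2 * b / g ^ 2) (2 * K / g + 4) (max 1 g) hb'
    (le_max_left _ _) (by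
      intro R hR
      have hR1 : 1 ≤ R := (le_max_left _ _).trans hR
      have hRg : 1 ≤ R / g := by
        rw [le_div_iff₀ hg, one_mul]
        exact (le_max_right _ _).trans hR
      have h1 := h (R / g) hRg
      have h2 := hle R
      have h3 := hle2 R
      have h4 := hcard R
      have h2' : ((({x : Bool × List Bool | XA2_M ρ x ≤ R / g}.ncard : ℕ)) : ℝ) ≤
        ((({x : Bool × List Bool | XA2_M ρ x ≤ R / g} \ {x | x.2 = []}).ncard : ℕ) : ℝ) + 2 := by
        exact_mod_cast h2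
      have h3' : ((({x : Bool × List Bool | XA2_M ρ x ≤ R / g} \ {x | x.2 = []}).ncard : ℕ) : ℝ) ≤
        ((({x : Bool × List Bool | XA2_M ρ x ≤ R / g}.ncard : ℕ)) : ℝ) := by
        exact_mod_cast h3
      have e1 : b * (R / g) ^ 2 = b / g ^ 2 * R ^ 2 := by
        field_simp
      have e2 : K * (R / g) = K / g * R := by
        field_simp
      have e3 : 2 * b / g ^ 2 * R ^ 2 = 2 * (b / g ^ 2 * R ^ 2) := by ring
      have e4 : (2 * K / g + 4) * R = 2 * (K / g * R) + 4 * R := by ring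
      rw [e1, e2, abs_le] at h1
      show |(({i : Ix | g * XA2_M ρ (XA2_ch b0 i) ≤ R}.ncard : ℝ)) - 2 * b / g ^ 2 * R ^ 2| ≤
        (2 * K / g + 4) * R
      rw [h4, e3, e4, abs_le]
      push_cast
      constructor <;> linarith [h1.1, h1.2])
  exact ⟨K', hb', hK'⟩

theorem XA2_child (hXB : XB_stmt) (ρ : F2 →* SpecialLinearGroup (Fin 2) ℝ)
    (hA : Adm (trTri ρ (ga, gb))) : ∃ C : ℝ, ∀ (ε : Bool) (w : List Bool),
    |len (desc w (XA2_P ρ ε)).1 + 2 * len (desc w (XA2_P ρ ε)).2.1 - XA2_M ρ (ε, w ++ [false])| ≤ C ∧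
    |2 * len (desc w (XA2_P ρ ε)).1 + len (desc w (XA2_P ρ ε)).2.1 - XA2_M ρ (ε, w ++ [true])| ≤ C := by
  obtain ⟨C1, h1⟩ := hXB _ hA
  obtain ⟨C2, h2⟩ := hXB _ hA.Tw
  have h : ∀ (ε : Bool) (w : List Bool), |len (desc w (XA2_P ρ ε)).1 + len (desc w (XA2_P ρ ε)).2.1 -
      len (desc w (XA2_P ρ ε)).2.2| ≤ max C1 C2 := by
    intro ε w
    cases ε
    · exact (h2 w).trans (le_max_right _ _)
    · exact (h1 w).trans (le_max_left _ _)
  refine ⟨2 * max C1 C2, ?_⟩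
  intro ε w
  have h0 := h ε w
  have hf := h ε (w ++ [false])
  have ht := h ε (w ++ [true])
  have ef : desc (w ++ [false]) (XA2_P ρ ε) = Rm (desc w (XA2_P ρ ε)) := by
    rw [XA2_desc]
    rfl
  have et : desc (w ++ [true]) (XA2_P ρ ε) = Lm (desc w (XA2_P ρ ε)) := by
    rw [XA2_desc]
    rfl
  have mf : XA2_M ρ (ε, w ++ [false]) = len (Rm (desc w (XA2_P ρ ε))).2.2 := by
    unfold XA2_M
    rw [ef]
  have mt : XA2_M ρ (ε, w ++ [true]) = len (Lm (desc w (XA2_P ρ ε))).2.2 := by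
    unfold XA2_M
    rw [et]
  rw [ef] at hf
  rw [et] at ht
  rw [mf, mt]
  have f1 : (Rm (desc w (XA2_P ρ ε))).1 = (desc w (XA2_P ρ ε)).2.2 := rfl
  have f2 : (Rm (desc w (XA2_P ρ ε))).2.1 = (desc w (XA2_P ρ ε)).2.1 := rfl
  have t1 : (Lm (desc w (XA2_P ρ ε))).1 = (desc w (XA2_P ρ ε)).1 := rfl
  have t2 : (Lm (desc w (XA2_P ρ ε))).2.1 = (desc w (XA2_P ρ ε)).2.2 := rfl
  rw [f1, f2] at hf
  rw [t1, t2] at ht
  rw [abs_le] at h0 hf ht ⊢
  rw [abs_le]
  refine ⟨⟨?_, ?_⟩, ⟨?_, ?_⟩⟩ <;> linarith [h0.1, h0.2, hf.1, hf.2, ht.1, ht.2]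

theorem XA2 (hXB : XB_stmt) (hXI : XI_stmt) (hXZ : XZ_stmt) (hXP : XP_stmt) (hT : TOT_stmt) :
    XA2_stmt := by
  intro ρ hA g hg
  obtain ⟨C, hC⟩ := XA2_child hXB ρ hA
  refine hXP (fun i => g * XA2_M ρ (XA2_ch false i)) _ (g * C) (XA2_GW hXZ hT ρ hA false g hg) ?_
  rintro ⟨ε, w, τ⟩
  obtain ⟨-, h1, h2⟩ := hXI ρ hA ε w τ
  obtain ⟨h3, h4⟩ := hC ε w
  have hP : (if ε then trTri ρ (ga, gb) else Tw (trTri ρ (ga, gb))) = XA2_P ρ ε := rfl
  rw [hP] at h1 h2
  show |g * (lx ρ (ε, w, τ) + 2 * ly ρ (ε, w, τ)) - g * XA2_M ρ (XA2_ch false (ε, w, τ))| ≤ g * C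
  rw [← mul_sub, abs_mul, abs_of_pos hg]
  apply mul_le_mul_of_nonneg_left _ hg.le
  by_cases hτ : τ.val % 2 = 0
  · obtain ⟨e1, e2⟩ := h1 hτ
    have e3 : XA2_ch false (ε, w, τ) = (ε, w ++ [false]) := by
      simp [XA2_ch, hτ]
    rw [e1, e2, e3]
    exact h3
  · obtain ⟨e1, e2⟩ := h2 (by omega)
    have e3 : XA2_ch false (ε, w, τ) = (ε, w ++ [true]) := by
      simp [XA2_ch, hτ]
    rw [e1, e2, e3]
    have e4 : len (desc w (XA2_P ρ ε)).2.1 + 2 * len (desc w (XA2_P ρ ε)).1 =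
      2 * len (desc w (XA2_P ρ ε)).1 + len (desc w (XA2_P ρ ε)).2.1 := by ring
    rw [e4]
    exact h4

end AM
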